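import Mathlib
import Pool.Agent.H172.TC.Final

/-!
# Two nearly equal sizes of cubes suffice for all but `O(N ^ (1 - c))` numbers `n ≤ N`

Q2 asks whether for every large `n` the unit cube has a tiling by exactly `n` cubes of at most two
sizes, the ratio of the sizes tending to `1`. We show that this is true for all `n` outside of a
set which has at most `C N ^ (1 - c)` elements up to `N`, and that the ratio is at most
`1 + n ^ (-c)` there. This holds in every dimension `d ≥ 1`; the question is the case `d = 3`.

Proof. Let `m(a) = (a + 1) ^ d - a ^ d`. If `n` is large in terms of `a` and a `d`-th power modulo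
`m(a)`, then the cube can be divided into `M ^ d` blocks, and these into `a ^ d` or `(a + 1) ^ d`
cubes, such that there are `n` cubes in all. We use the `a ≤ N ^ (c')`, divisible by a fixed
number, for which `m(a)` has no prime factor below `y = N ^ (c'')`. The lower bound sieve of Brun
and Hooley (with a level which is a power of `y`) shows that there are many of them. The number of
`d`-th roots of `n` modulo `m(a)` which are prime to `m(a)`, summed over these `a`, has the
expected mean over `n ≤ N`, and its variance is small, because two of the numbers `m(a)` have a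
common factor only rarely and this factor is larger than `y`. By Chebyshev's inequality the sum
vanishes for at most `C N / y ^ (1/4)` of the numbers `n ≤ N`.
-/

set_option autoImplicit false

namespace Pool.Agent.Results.MP_695dce_co.TwoSizesAlmostAll

/-- The closed cube of dimension `d` with least corner `x` and side length `a`. -/
def Cube {d : ℕ} (x : Fin d → ℝ) (a : ℝ) : Set (Fin d → ℝ) := Set.Icc x fun k => x k + a

/-- The closed cubes with the corners `x i` and the side lengths `a i` tile the unit cube: the
side lengths are positive and less than one, the union of the cubes is the unit cube, and their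
interiors are pairwise disjoint. -/
def IsTiling {d n : ℕ} (x : Fin n → Fin d → ℝ) (a : Fin n → ℝ) : Prop :=
  (∀ i, 0 < a i ∧ a i < 1) ∧ (⋃ i, Cube (x i) (a i)) = Set.Icc 0 1 ∧
    ∀ i j, i ≠ j → Disjoint (interior (Cube (x i) (a i))) (interior (Cube (x j) (a j)))

/-- **Two nearly equal sizes suffice for all but `O(N ^ (1 - c))` of the numbers `n ≤ N`.** For
every dimension `d ≥ 1` there are `c > 0`, `C` and a set `S` of integers which contains all but at
most `C N ^ (1 - c)` of the integers `1 ≤ n ≤ N`, for all `N ≥ 1`, and for each `n` in `S` the unit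
cube of dimension `d` has a tiling by exactly `n` cubes of at most two different side lengths,
the ratio of any two of which is at most `1 + n ^ (-c)`. -/
theorem result (d : ℕ) (hd : 1 ≤ d) :
    ∃ (c C : ℝ) (S : Set ℕ) (x : (n : ℕ) → Fin n → Fin d → ℝ) (a : (n : ℕ) → Fin n → ℝ),
      0 < c ∧
      (∀ N : ℕ, 1 ≤ N → ((Set.Icc 1 N \ S).ncard : ℝ) ≤ C * (N : ℝ) ^ (1 - c)) ∧
      ∀ n ∈ S, IsTiling (x n) (a n) ∧ (Set.range (a n)).ncard ≤ 2 ∧
        ∀ i j, a n i ≤ (1 + (n : ℝ) ^ (-c)) * a n j := by
  classical
  obtain ⟨c, hc0, -, C, hC⟩ := H172.TC.power_saving d hd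
  have h1 : ∀ n : ℕ, ∃ (x : Fin n → Fin d → ℝ) (a : Fin n → ℝ),
      H172.TC.TwoSizes d ((n : ℝ) ^ (-c)) n → IsTiling x a ∧ (Set.range a).ncard ≤ 2 ∧
        ∀ i j, a i ≤ (1 + (n : ℝ) ^ (-c)) * a j := by
    intro n
    by_cases h : H172.TC.TwoSizes d ((n : ℝ) ^ (-c)) n
    · obtain ⟨x, a, s₁, s₂, h1, h2, h3, h4, h5, h6⟩ := h
      refine ⟨x, a, fun _ => ⟨h6, ?_, ?_⟩⟩
      · have h7 : Set.range a ⊆ {s₁, s₂} := by
          rintro _ ⟨i, rfl⟩
          exact h5 i
        refine (Set.ncard_le_ncard h7 (Set.toFinite _)).trans ?_
        exact Set.ncard_insert_le _ _ |>.trans (by rw [Set.ncard_singleton])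
      · have h0 : (0 : ℝ) ≤ (n : ℝ) ^ (-c) := Real.rpow_nonneg (Nat.cast_nonneg n) _
        intro i j
        have h8 : a i ≤ s₂ := by
          rcases h5 i with h | h <;> rw [h]
          exact h2.le
        have h9 : s₁ ≤ a j := by
          rcases h5 j with h | h <;> rw [h]
          exact h2.le
        calc a i ≤ s₂ := h8
          _ ≤ (1 + (n : ℝ) ^ (-c)) * s₁ := h4
          _ ≤ (1 + (n : ℝ) ^ (-c)) * a j := mul_le_mul_of_nonneg_left h9 (by linarith)
    · exact ⟨fun _ _ => 0, fun _ => 0, fun h' => absurd h' h⟩
  choose x a hxa using h1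
  refine ⟨c, C, {n | H172.TC.TwoSizes d ((n : ℝ) ^ (-c)) n}, x, a, hc0, fun N hN => ?_,
    fun n hn => hxa n hn⟩
  refine le_trans (le_of_eq ?_) (hC N hN)
  congr 1
  rw [← Set.ncard_coe_finset]
  congr 1
  ext n
  simp

end Pool.Agent.Results.MP_695dce_co.TwoSizesAlmostAll
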